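import Pool.Agent.H96.AL.Targets3

open Topology Set Filter Real

namespace Pool.Agent.H48.AL

open Pool.Agent.H96.AL

theorem contr {X : Type} [MetricSpace X] (hG : Geo X) (lam : ℝ) (h0 : 0 ≤ lam) (h1 : lam ≤ 1)
    (x y : X) : ∃ m, Pool.Agent.H96.AL.Btw x m y ∧ dist x m = lam * dist x y := by
  obtain ⟨γ, g0, g1, g2⟩ := hG x y
  have hd : 0 ≤ dist x y := dist_nonneg
  have hm : lam * dist x y ∈ Icc (0 : ℝ) (dist x y) := ⟨by positivity, by nlinarith⟩
  have e1 := g2 0 ⟨le_rfl, hd⟩ _ hm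
  have e2 := g2 _ hm (dist x y) ⟨hd, le_rfl⟩
  rw [g0, zero_sub, abs_neg, abs_of_nonneg hm.1] at e1
  rw [g1, abs_sub_comm, abs_of_nonneg (by linarith [hm.2])] at e2
  refine ⟨γ (lam * dist x y), ?_, e1⟩
  change _ + _ = _
  linarith

theorem ca_step (hCO : T_CO) {X : Type} [MetricSpace X] {D : ℝ} (hS : Sp X D) {x : X}
    {r ε : ℝ} (hr : 0 < r) (hε : 0 < ε) (hεr : ε ≤ r) (s : Finset X)
    (hs : (↑s : Set X) ⊆ Metric.closedBall x r) (hsep : Sepd ε s) (T : Finset X)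
    (hT : (↑T : Set X) ⊆ Metric.closedBall x (2 * r)) (σ : ℝ) (hσ : 0 < σ) (hσε : σ ≤ ε)
    (hTs : Sepd σ T) :
    ∃ T' : Finset X, (↑T' : Set X) ⊆ Metric.closedBall x (2 * r) ∧ T'.card = s.card * T.card ∧
      Sepd (σ * (ε / r / 12 / cosh D ^ 2)) T' := by
  classical
  obtain ⟨lam, hlam⟩ : ∃ lam : ℝ, lam = ε / r / 12 := ⟨_, rfl⟩
  have hl0 : 0 < lam := by rw [hlam]; positivity
  have hlr : lam * r = ε / 12 := by rw [hlam]; field_simp
  have hl1 : lam ≤ 1 / 12 := by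
    have : ε / r ≤ 1 := by rw [div_le_one hr]; exact hεr
    rw [hlam]; linarith
  have hK : 1 ≤ cosh D ^ 2 := by
    have := one_le_cosh D
    nlinarith
  obtain ⟨μ, hμ⟩ : ∃ μ : ℝ, μ = lam / cosh D ^ 2 := ⟨_, rfl⟩
  have hμ0 : 0 < μ := by rw [hμ]; positivity
  have hμ1 : μ ≤ 1 / 12 := by
    rw [hμ, div_le_iff₀ (by linarith)]
    nlinarith
  have hμK : μ * cosh D ^ 2 = lam := by
    rw [hμ]; field_simp
  rw [← hlam, ← hμ]
  choose φ h1 h2 using contr hS.geo lam hl0.le (by linarith)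
  have hb : ∀ a ∈ s, ∀ y ∈ T, dist a (φ a y) ≤ ε / 4 := by
    intro a ha y hy
    have e1 := hs ha
    have e2 := hT hy
    rw [Metric.mem_closedBall] at e1 e2
    have e3 : dist a y ≤ 3 * r := by
      have := dist_triangle a x y
      rw [dist_comm x y] at this
      linarith
    rw [h2]
    have := mul_le_mul_of_nonneg_left e3 hl0.le
    nlinarith
  have key : ∀ p ∈ s ×ˢ T, ∀ q ∈ s ×ˢ T, p ≠ q → σ * μ ≤ dist (φ p.1 p.2) (φ q.1 q.2) := by
    intro p hp q hq hpq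
    rw [Finset.mem_product] at hp hq
    by_cases h : p.1 = q.1
    · have hne : p.2 ≠ q.2 := fun h' => hpq (Prod.ext h h')
      have e1 := hTs _ hp.2 _ hq.2 hne
      have e2 := hCO X D hS q.1 p.2 q.2 (φ q.1 p.2) (φ q.1 q.2) lam hl0 (by linarith)
        (h1 _ _) (h1 _ _) (h2 _ _) (h2 _ _)
      rw [h]
      have e3 : cosh D ^ 2 * (σ * μ) ≤ cosh D ^ 2 * dist (φ q.1 p.2) (φ q.1 q.2) := by
        calc cosh D ^ 2 * (σ * μ) = lam * σ := by rw [← hμK]; ring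
          _ ≤ lam * dist p.2 q.2 := by gcongr
          _ ≤ _ := e2
      exact le_of_mul_le_mul_left e3 (by linarith)
    · have e1 := hsep _ hp.1 _ hq.1 h
      have e2 := hb _ hp.1 _ hp.2
      have e3 := hb _ hq.1 _ hq.2
      have e4 := dist_triangle4 p.1 (φ p.1 p.2) (φ q.1 q.2) q.1
      rw [dist_comm (φ q.1 q.2) q.1] at e4
      have e5 : σ * μ ≤ ε * (1 / 12) := mul_le_mul hσε hμ1 hμ0.le hε.le
      linarith
  refine ⟨(s ×ˢ T).image (fun p => φ p.1 p.2), ?_, ?_, ?_⟩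
  · intro w hw
    rw [Finset.mem_coe, Finset.mem_image] at hw
    obtain ⟨p, hp, rfl⟩ := hw
    rw [Finset.mem_product] at hp
    have e1 := hb _ hp.1 _ hp.2
    have e2 := hs hp.1
    rw [Metric.mem_closedBall] at e2 ⊢
    have e3 := dist_triangle (φ p.1 p.2) p.1 x
    rw [dist_comm (φ p.1 p.2) p.1] at e3
    linarith
  · rw [Finset.card_image_of_injOn, Finset.card_product]
    intro p hp q hq hpq
    by_contra hne
    have := key p hp q hq hne
    have h0 : φ p.1 p.2 = φ q.1 q.2 := hpq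
    rw [h0, dist_self] at this
    nlinarith [mul_pos hσ hμ0]
  · intro a ha b hb' hab
    rw [Finset.mem_image] at ha hb'
    obtain ⟨p, hp, rfl⟩ := ha
    obtain ⟨q, hq, rfl⟩ := hb'
    exact key p hp q hq (fun h => hab (by rw [h]))

theorem pf_CA (hCO : T_CO) : T_CA := by
  intro X _ D hS n C hC hP x r ε hr hε hεr s hs hsep
  by_contra hcon
  push Not at hcon
  obtain ⟨μ, hμ⟩ : ∃ μ : ℝ, μ = ε / r / 12 / cosh D ^ 2 := ⟨_, rfl⟩
  have hK : 1 ≤ cosh D ^ 2 := by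
    have := one_le_cosh D
    nlinarith
  have hKp : 0 < cosh D := cosh_pos D
  have hμ0 : 0 < μ := by rw [hμ]; positivity
  have hμ1 : μ ≤ 1 / 12 := by
    have : ε / r ≤ 1 := by rw [div_le_one hr]; exact hεr
    rw [hμ, div_le_iff₀ (by linarith)]
    nlinarith
  obtain ⟨M, hM⟩ : ∃ M : ℝ, M = (12 * cosh D ^ 2) ^ n * (r / ε) ^ n := ⟨_, rfl⟩
  have hMμ : M = (1 / μ) ^ n := by
    rw [hM, hμ, ← mul_pow]
    congr 1
    field_simp
  have hM0 : 0 < M := by rw [hMμ]; positivity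
  rw [← hM] at hcon
  have hT : ∀ j : ℕ, ∃ T : Finset X, (↑T : Set X) ⊆ Metric.closedBall x (2 * r) ∧
      T.card = s.card ^ (j + 1) ∧ Sepd (ε * μ ^ j) T := by
    intro j
    induction j with
    | zero =>
      refine ⟨s, hs.trans (Metric.closedBall_subset_closedBall (by linarith)), by simp, ?_⟩
      simpa using hsep
    | succ j ih =>
      obtain ⟨T, h1, h2, h3⟩ := ih
      have hp1 : μ ^ j ≤ 1 := pow_le_one₀ hμ0.le (by linarith)
      obtain ⟨T', e1, e2, e3⟩ := ca_step hCO hS hr hε hεr s hs hsep T h1 (ε * μ ^ j)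
        (by positivity) (by nlinarith) h3
      refine ⟨T', e1, by rw [e2, h2]; ring, ?_⟩
      rw [← hμ] at e3
      rw [pow_succ, ← mul_assoc]
      exact e3
  have hlim : Tendsto (fun j : ℕ => ε * μ ^ j) atTop (𝓝 (ε * 0)) :=
    (tendsto_pow_atTop_nhds_zero_of_lt_one hμ0.le (by linarith)).const_mul ε
  have hev : ∀ᶠ j : ℕ in atTop, ε * μ ^ j < 1 :=
    hlim.eventually_lt_const (by rw [mul_zero]; norm_num)
  have hQ : 1 < (s.card : ℝ) / M := by rw [lt_div_iff₀ hM0, one_mul]; exact hcon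
  have hev2 : ∀ᶠ j : ℕ in atTop, C * (1 / ε) ^ n / s.card < ((s.card : ℝ) / M) ^ j :=
    (tendsto_pow_atTop_atTop_of_one_lt hQ).eventually_gt_atTop _
  obtain ⟨j, hj1, hj2⟩ := (hev.and hev2).exists
  obtain ⟨T, h1, h2, h3⟩ := hT j
  have h4 := hP (ε * μ ^ j) (by positivity) hj1.le T (subset_univ _) h3
  have hQ0 : (0 : ℝ) < s.card := hM0.trans hcon
  rw [h2] at h4
  push_cast at h4
  have h5 : C * (1 / (ε * μ ^ j)) ^ n = C * (1 / ε) ^ n * M ^ j := by
    rw [hMμ, ← pow_mul, mul_comm n j, pow_mul, mul_assoc, ← mul_pow]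
    congr 2
    rw [one_div_pow, one_div_mul_one_div]
  rw [h5] at h4
  rw [div_pow _ M, div_lt_div_iff₀ hQ0 (by positivity)] at hj2
  have h6 : (s.card : ℝ) ^ (j + 1) = s.card ^ j * s.card := pow_succ _ _
  rw [h6] at h4
  linarith

end Pool.Agent.H48.AL
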