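import Pool.Agent.H96.AL.Targets3

open Topology Set Filter Real

namespace Pool.Agent.H48.AL

open Pool.Agent.H96.AL

theorem cosh_sub_ge {a b : ℝ} (hb : 0 ≤ b) (hab : b ≤ a) :
    sinh b * (a - b) ≤ cosh a - cosh b := by
  have h1 : a = b + (a - b) := by ring
  have h2 : cosh a = cosh b * cosh (a - b) + sinh b * sinh (a - b) := by
    conv_lhs => rw [h1]
    rw [cosh_add]
  have h3 : a - b ≤ sinh (a - b) := self_le_sinh_iff.2 (by linarith)
  have h4 : 1 ≤ cosh (a - b) := one_le_cosh _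
  have h5 : 0 ≤ sinh b := sinh_nonneg_iff.2 hb
  have h6 : 0 < cosh b := cosh_pos b
  rw [h2]
  nlinarith [mul_nonneg h5 (by linarith : 0 ≤ sinh (a - b) - (a - b)),
    mul_nonneg h6.le (by linarith : 0 ≤ cosh (a - b) - 1)]

theorem cosh_sub_le (hEL : T_EL) {D a b : ℝ} (hb : 0 ≤ b) (hab : b ≤ a) (haD : a ≤ D) :
    cosh a - cosh b ≤ cosh D ^ 2 * ((a ^ 2 - b ^ 2) / 2) := by
  have h1 : cosh a - cosh b = 2 * sinh ((a + b) / 2) * sinh ((a - b) / 2) := by
    have e1 : a = (a + b) / 2 + (a - b) / 2 := by ring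
    have e2 : b = (a + b) / 2 - (a - b) / 2 := by ring
    have e3 := cosh_add ((a + b) / 2) ((a - b) / 2)
    have e4 := cosh_sub ((a + b) / 2) ((a - b) / 2)
    rw [← e1] at e3
    rw [← e2] at e4
    rw [e3, e4]; ring
  obtain ⟨_, h2, _⟩ := hEL D ((a + b) / 2) (by linarith) (by linarith)
  obtain ⟨_, h3, _⟩ := hEL D ((a - b) / 2) (by linarith) (by linarith)
  have h4 : 0 ≤ sinh ((a - b) / 2) := sinh_nonneg_iff.2 (by linarith)
  have h5 := mul_le_mul h2 h3 h4 (mul_nonneg (by linarith) (cosh_pos D).le)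
  rw [h1]
  nlinarith

/-- The lower bound of the sum of the slopes. -/
theorem sum_ge {X : Type} (Y : Finset X) (f : X → ℝ) (a b : ℝ) (ha : 0 ≤ a) (hb : 0 ≤ b)
    (hf : ∀ y ∈ Y, -b ≤ f y)
    (hc : 2 * (Y.filter (fun y => f y ≤ a)).card ≤ Y.card) :
    (Y.card : ℝ) * (a / 2 - b) ≤ ∑ y ∈ Y, f y := by
  classical
  rw [← Finset.sum_filter_add_sum_filter_not Y (fun y => f y ≤ a)]
  have h1 : -b * (Y.filter (fun y => f y ≤ a)).card ≤ ∑ y ∈ Y.filter (fun y => f y ≤ a), f y := by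
    have := Finset.card_nsmul_le_sum (Y.filter (fun y => f y ≤ a)) f (-b)
      (fun y hy => hf y (Finset.mem_filter.1 hy).1)
    rw [nsmul_eq_mul] at this
    linarith
  have h2 : a * (Y.filter (fun y => ¬ f y ≤ a)).card ≤
      ∑ y ∈ Y.filter (fun y => ¬ f y ≤ a), f y := by
    have := Finset.card_nsmul_le_sum (Y.filter (fun y => ¬ f y ≤ a)) f a
      (fun y hy => (not_le.1 (Finset.mem_filter.1 hy).2).le)
    rw [nsmul_eq_mul] at this
    linarith
  have h3 := Finset.card_filter_add_card_filter_not (s := Y) (fun y => f y ≤ a)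
  have h3' : ((Y.filter (fun y => f y ≤ a)).card : ℝ) +
      (Y.filter (fun y => ¬ f y ≤ a)).card = Y.card := by exact_mod_cast h3
  have h4 : 2 * ((Y.filter (fun y => f y ≤ a)).card : ℝ) ≤ Y.card := by exact_mod_cast hc
  have h5 : (0 : ℝ) ≤ (Y.filter (fun y => f y ≤ a)).card := Nat.cast_nonneg _
  nlinarith [mul_nonneg hb (by linarith : (0:ℝ) ≤ (Y.card : ℝ) - (Y.filter (fun y => f y ≤ a)).card)]

theorem bracket {c u u' t C C2 : ℝ} (hc : 0 < c) (hu'0 : 0 < u')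
    (ht0 : 0 < t) (hC : 0 < C) (hC2 : 0 < C2) (ht2 : t ≤ c * u / 16) (ht3 : t ≤ u / 16)
    (hle1 : u ≤ u' + t) (hle2 : u' ≤ u + t) (g4 : 36 * C2 * u ≤ c) (g4' : 64 * C * u ≤ c) :
    c * u / 4 ≤ c * u' / 2 - C2 * u' ^ 2 - (t + C * (u' + t) ^ 2) := by
  have f1 : C2 * u' ^ 2 ≤ c * u / 16 := by
    have g1 : u' ≤ 3 / 2 * u := by linarith
    have g2 : u' ^ 2 ≤ (3 / 2 * u) ^ 2 := by gcongr
    have g3 : C2 * u' ^ 2 ≤ C2 * (3 / 2 * u) ^ 2 := mul_le_mul_of_nonneg_left g2 hC2.le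
    have g5 : C2 * (3 / 2 * u) ^ 2 = (36 * C2 * u) * (u / 16) := by ring
    have g6 : (36 * C2 * u) * (u / 16) ≤ c * (u / 16) :=
      mul_le_mul_of_nonneg_right g4 (by linarith)
    linarith
  have f2 : C * (u' + t) ^ 2 ≤ c * u / 16 := by
    have g1 : u' + t ≤ 2 * u := by linarith
    have g2 : (u' + t) ^ 2 ≤ (2 * u) ^ 2 := by gcongr
    have g3 : C * (u' + t) ^ 2 ≤ C * (2 * u) ^ 2 := mul_le_mul_of_nonneg_left g2 hC.le
    have g5 : C * (2 * u) ^ 2 = (64 * C * u) * (u / 16) := by ring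
    have g6 : (64 * C * u) * (u / 16) ≤ c * (u / 16) :=
      mul_le_mul_of_nonneg_right g4' (by linarith)
    linarith
  have f3 : c * u - c * u / 16 ≤ c * u' := by
    have e1 : c * t ≤ c * (u / 16) := mul_le_mul_of_nonneg_left ht3 hc.le
    have e2 : c * u ≤ c * (u' + t) := mul_le_mul_of_nonneg_left hle1 hc.le
    linarith
  linarith

theorem low_slope (hEL : T_EL) {X : Type} [MetricSpace X] {D R u' : ℝ} (hR : 0 < R)
    (hK : 1 ≤ cosh D) {z' p y : X} (e1 : cosh (dist z' y) ≤ cosh (dist z' p) * cosh (dist p y))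
    (hu' : u' = dist z' p) (hu'0 : 0 < u') (hD : dist z' p ≤ D) (hD2 : dist p y ≤ D)
    (e2 : R ≤ dist p y) :
    -(cosh D ^ 2 / (2 * R) * u' ^ 2) ≤ dist p y - dist z' y := by
  have hKp : 0 < cosh D := by linarith
  by_cases hcase : dist z' y ≤ dist p y
  · have : 0 ≤ cosh D ^ 2 / (2 * R) * u' ^ 2 := by positivity
    linarith
  · push Not at hcase
    rw [← hu'] at e1 hD
    have e3 := cosh_sub_ge (a := dist z' y) (b := dist p y) dist_nonneg hcase.le
    have e4 : R ≤ sinh (dist p y) := e2.trans (self_le_sinh_iff.2 dist_nonneg)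
    obtain ⟨_, _, _, e5, _⟩ := hEL D u' hu'0.le hD
    have e6 : cosh (dist p y) ≤ cosh D := by
      rw [cosh_le_cosh, abs_of_nonneg dist_nonneg, abs_of_nonneg (by linarith)]
      exact hD2
    have e7 : 0 < cosh (dist p y) := cosh_pos _
    have e8 : (cosh u' - 1) * cosh (dist p y) ≤ (u' ^ 2 / 2 * cosh D) * cosh D :=
      mul_le_mul e5 e6 e7.le (by positivity)
    have e9 : R * (dist z' y - dist p y) ≤ sinh (dist p y) * (dist z' y - dist p y) :=
      mul_le_mul_of_nonneg_right e4 (by linarith)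
    have e10 : R * (dist z' y - dist p y) ≤ u' ^ 2 / 2 * cosh D ^ 2 := by linarith
    have e11 : R * (cosh D ^ 2 / (2 * R) * u' ^ 2) = u' ^ 2 / 2 * cosh D ^ 2 := by
      field_simp
    have e12 : dist z' y - dist p y ≤ cosh D ^ 2 / (2 * R) * u' ^ 2 :=
      le_of_mul_le_mul_left (by rw [e11]; exact e10) hR
    linarith

theorem fin_ineq {N s t b a S B u u' q : ℝ} (hN : 0 < N) (hs : 0 < s) (hsN : s * N = t)
    (hb : 0 ≤ b) (hbr : b ≤ a - B) (hsum : N * a ≤ S) (hc : cosh u ≤ cosh q)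
    (hcmp : cosh q + sinh s * (S - N * B) ≤ cosh u') : cosh u + t * b ≤ cosh u' := by
  have hss : s ≤ sinh s := self_le_sinh_iff.2 hs.le
  have h1 : N * b ≤ N * (a - B) := mul_le_mul_of_nonneg_left hbr hN.le
  have h2 : N * b ≤ S - N * B := by linarith
  have h3 : sinh s * (N * b) ≤ sinh s * (S - N * B) :=
    mul_le_mul_of_nonneg_left h2 (by linarith)
  have h4 : s * (N * b) ≤ sinh s * (N * b) := mul_le_mul_of_nonneg_right hss (by positivity)
  have h5 : t * b = s * (N * b) := by rw [← hsN]; ring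
  linarith

theorem rr_core (hMS : T_MS) (hEX : T_EX) (hFO : T_FO) (hEL : T_EL) {X : Type} [MetricSpace X]
    {D : ℝ} (hS : Sp X D) {R : ℝ} (hR : 0 < R) (hR1 : R ≤ 1) (y₁ : X) (Y : Finset X) (c dl : ℝ)
    (hY : Y.Nonempty) (hYR : ∀ y ∈ Y, dist y y₁ ≤ R) (hc : 0 < c) (hdl : 0 < dl)
    (hBL : ∀ z p : X, 2 * R ≤ dist z y₁ → 0 < dist z p → dist z p ≤ dl →
      (∀ w : X, Pool.Agent.H96.AL.Btw z w p →
        ∀ y : X, cosh (dist w y) ≤ cosh (dist w p) * cosh (dist p y)) →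
      2 * (Y.filter (fun y => dist p y - dist z y ≤ c * dist z p)).card ≤ Y.card) :
    ∃ c₁ δ₁ : ℝ, 0 < c₁ ∧ c₁ ≤ 1 ∧ 0 < δ₁ ∧ ∀ E : Set X, Extremal E → E.Nonempty → ∀ z : X,
      4 * R ≤ dist z y₁ → 0 < Metric.infDist z E → Metric.infDist z E < δ₁ →
      SlopeGe (hd E) z (c₁ * Metric.infDist z E) := by
  classical
  have := hS.compact
  -- we may assume that `c ≤ 1`
  wlog hc1 : c ≤ 1 generalizing c
  · refine this 1 one_pos (fun z p h1 h2 h3 h4 => ?_) le_rfl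
    refine le_trans ?_ (hBL z p h1 h2 h3 h4)
    refine Nat.mul_le_mul_left 2 (Finset.card_le_card ?_)
    intro y hy
    rw [Finset.mem_filter] at hy ⊢
    refine ⟨hy.1, hy.2.trans ?_⟩
    exact mul_le_mul_of_nonneg_right (not_le.1 hc1).le dist_nonneg
  obtain ⟨C, hC, hMS'⟩ := hMS X D R hS hR
  have hK : 1 ≤ cosh D := one_le_cosh D
  have hKp : 0 < cosh D := cosh_pos D
  obtain ⟨C2, hC2⟩ : ∃ C2 : ℝ, C2 = cosh D ^ 2 / (2 * R) := ⟨_, rfl⟩
  have hC2p : 0 < C2 := by rw [hC2]; positivity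
  obtain ⟨δ, hδ⟩ : ∃ δ : ℝ, δ = min (min (dl / 2) (R / 4))
    (min (c / (36 * C2)) (c / (64 * C))) := ⟨_, rfl⟩
  have hδ0 : 0 < δ := by rw [hδ]; positivity
  have hδ1 : δ ≤ dl / 2 := by rw [hδ]; exact (min_le_left _ _).trans (min_le_left _ _)
  have hδ2 : δ ≤ R / 4 := by rw [hδ]; exact (min_le_left _ _).trans (min_le_right _ _)
  have hδ3 : δ ≤ c / (36 * C2) := by
    rw [hδ]; exact (min_le_right _ _).trans (min_le_left _ _)
  have hδ4 : δ ≤ c / (64 * C) := by
    rw [hδ]; exact (min_le_right _ _).trans (min_le_right _ _)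
  rw [le_div_iff₀ (by positivity)] at hδ3 hδ4
  refine ⟨c / (4 * cosh D ^ 2), δ, by positivity, ?_, hδ0, ?_⟩
  · rw [div_le_one (by positivity)]
    nlinarith
  intro E hE hEn z hz hu0 huδ ε hε r hr
  obtain ⟨u, hu⟩ : ∃ u : ℝ, u = Metric.infDist z E := ⟨_, rfl⟩
  rw [← hu] at hu0 huδ ⊢
  obtain ⟨t, ht⟩ : ∃ t : ℝ, t = min (r / 2) (c * u / 16) := ⟨_, rfl⟩
  have ht0 : 0 < t := by rw [ht]; positivity
  have ht1 : t < r := by
    have : t ≤ r / 2 := by rw [ht]; exact min_le_left _ _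
    linarith
  have ht2 : t ≤ c * u / 16 := by rw [ht]; exact min_le_right _ _
  have ht3 : t ≤ u / 16 := by nlinarith
  have hN : 0 < Y.card := hY.card_pos
  have hN' : (0 : ℝ) < Y.card := by exact_mod_cast hN
  obtain ⟨s, hs⟩ : ∃ s : ℝ, s = t / Y.card := ⟨_, rfl⟩
  have hs0 : 0 < s := by rw [hs]; positivity
  have hsN : s * Y.card = t := by rw [hs]; field_simp
  have hlen : (Y.toList.length : ℝ) = Y.card := by rw [Finset.length_toList]
  obtain ⟨z', hz', hcmp⟩ := hMS' Y.toList z s hs0 (by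
    intro y hy
    rw [Finset.mem_toList] at hy
    rw [hlen, hsN]
    have e1 := hYR y hy
    have e2 := dist_triangle z y y₁
    linarith)
  rw [hlen, hsN] at hz' 
  obtain ⟨⟨p, hp⟩, hp2, hp3⟩ := hFO X E hE.1 hEn z'
  obtain ⟨u', hu'⟩ : ∃ u' : ℝ, u' = dist z' p := ⟨_, rfl⟩
  have hu'2 : u' = Metric.infDist z' E := by rw [hu', hp2 p hp]
  have hle1 : u ≤ u' + t := by
    have := Metric.infDist_le_infDist_add_dist (s := E) (x := z) (y := z')
    rw [hu, hu'2]; linarith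
  have hle2 : u' ≤ u + t := by
    have := Metric.infDist_le_infDist_add_dist (s := E) (x := z') (y := z)
    rw [dist_comm z' z] at this
    rw [hu, hu'2]; linarith
  have hu'0 : 0 < u' := by linarith
  -- the band lemma
  have hzy : 2 * R ≤ dist z' y₁ := by
    have := dist_triangle z z' y₁
    linarith
  have hft : ∀ w : X, Pool.Agent.H96.AL.Btw z' w p → Foot E w p := by
    intro w hw
    refine ⟨hp.1, fun e he => ?_⟩
    have e1 : dist z' w + dist w p = dist z' p := hw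
    have e2 := hp.2 e he
    have e3 := dist_triangle z' w e
    linarith
  have hB := hBL z' p hzy (by rw [← hu']; exact hu'0) (by rw [← hu']; linarith)
    (fun w hw y => hEX X hS.geo hS.cb E hE w p (hft w hw) y)
  rw [← hu'] at hB
  have hlow : ∀ y ∈ Y, -(C2 * u' ^ 2) ≤ dist p y - dist z' y := by
    intro y hy
    rw [hC2]
    refine low_slope hEL hR hK (hEX X hS.geo hS.cb E hE z' p hp y) hu' hu'0 (hS.diam _ _)
      (hS.diam _ _) ?_
    have e3 := hYR y hy
    have e4 := dist_triangle4 z z' p y₁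
    have e5 := dist_triangle p y y₁
    rw [← hu'] at e4
    linarith
  have hsum := sum_ge Y (fun y => dist p y - dist z' y) (c * u') (C2 * u' ^ 2) (by positivity)
    (by positivity) hlow hB
  have hcmp' := hcmp p u' (by rw [hu', dist_comm])
  rw [hlen, hsN, Finset.sum_map_toList, dist_comm p z', ← hu'] at hcmp'
  have hpz : u ≤ dist p z := by
    rw [hu, dist_comm]
    exact Metric.infDist_le_dist_of_mem hp.1
  have hcpz : cosh u ≤ cosh (dist p z) := by
    rw [cosh_le_cosh, abs_of_nonneg hu0.le, abs_of_nonneg dist_nonneg]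
    exact hpz
  have hs1 : 36 * C2 * u ≤ c := by
    have : (36 * C2) * u ≤ (36 * C2) * δ := mul_le_mul_of_nonneg_left huδ.le (by positivity)
    linarith
  have hs2 : 64 * C * u ≤ c := by
    have : (64 * C) * u ≤ (64 * C) * δ := mul_le_mul_of_nonneg_left huδ.le (by positivity)
    linarith
  have hbr : c * u / 4 ≤ c * u' / 2 - C2 * u' ^ 2 - (t + C * (u' + t) ^ 2) :=
    bracket hc hu'0 ht0 hC hC2p ht2 ht3 hle1 hle2 hs1 hs2
  have hfin : cosh u + t * (c * u / 4) ≤ cosh u' :=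
    fin_ineq hN' hs0 hsN (by positivity) hbr hsum hcpz hcmp'
  have hlt : u < u' := by
    have : cosh u < cosh u' := by
      have : 0 < t * (c * u / 4) := by positivity
      linarith
    rw [cosh_lt_cosh, abs_of_pos hu0, abs_of_pos hu'0] at this
    exact this
  have hu'D : u' ≤ D := by
    rw [hu']
    exact hS.diam _ _
  have hup := cosh_sub_le hEL hu0.le hlt.le hu'D
  refine ⟨z', ?_, lt_of_le_of_lt hz' ht1, ?_⟩
  · intro h
    rw [h, ← hu] at hu'2
    linarith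
  · have g1 : hd E z' - hd E z = (u' ^ 2 - u ^ 2) / 2 := by
      unfold hd
      rw [← hu, ← hu'2]; ring
    rw [g1]
    have g2 : t * (c * u / 4) ≤ cosh D ^ 2 * ((u' ^ 2 - u ^ 2) / 2) := by linarith
    have g3 : t * (c / (4 * cosh D ^ 2) * u) ≤ (u' ^ 2 - u ^ 2) / 2 := by
      have : cosh D ^ 2 * (t * (c / (4 * cosh D ^ 2) * u)) = t * (c * u / 4) := by
        field_simp
      exact le_of_mul_le_mul_left (by rw [this]; exact g2) (by positivity)
    have g4 : (c / (4 * cosh D ^ 2) * u - ε) * dist z z' ≤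
        c / (4 * cosh D ^ 2) * u * dist z z' :=
      mul_le_mul_of_nonneg_right (by linarith) dist_nonneg
    have g5 : c / (4 * cosh D ^ 2) * u * dist z z' ≤ c / (4 * cosh D ^ 2) * u * t :=
      mul_le_mul_of_nonneg_left hz' (by positivity)
    linarith

theorem slopeGe_mono {X : Type} [MetricSpace X] {g : X → ℝ} {z : X} {σ σ' : ℝ} (h : σ' ≤ σ)
    (hs : SlopeGe g z σ) : SlopeGe g z σ' := by
  intro ε hε r hr
  obtain ⟨w, h1, h2, h3⟩ := hs ε hε r hr
  exact ⟨w, h1, h2, le_trans (mul_le_mul_of_nonneg_right (by linarith) dist_nonneg) h3⟩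

theorem pf_RR (hBL : T_BL) (hMS : T_MS) (hEX : T_EX) (hFO : T_FO) (hEL : T_EL) : T_RR := by
  intro X _ D hS hdim
  have := hS.compact
  by_cases hsub : Subsingleton X
  · refine ⟨1, 1, one_pos, le_rfl, one_pos, fun E hE hEn z hz _ => ?_⟩
    exfalso
    obtain ⟨e, he⟩ := hEn
    have : z ∈ E := by rw [Subsingleton.elim z e]; exact he
    rw [Metric.infDist_zero_of_mem this] at hz
    exact lt_irrefl _ hz
  · obtain ⟨x0, x1, hne⟩ : ∃ x0 x1 : X, x0 ≠ x1 := by
      by_contra h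
      push Not at h
      exact hsub ⟨h⟩
    have hd0 : 0 < dist x0 x1 := dist_pos.2 hne
    obtain ⟨R, hR⟩ : ∃ R : ℝ, R = min 1 (dist x0 x1 / 8) := ⟨_, rfl⟩
    have hR0 : 0 < R := by rw [hR]; positivity
    have hR1 : R ≤ 1 := by rw [hR]; exact min_le_left _ _
    have hR2 : R ≤ dist x0 x1 / 8 := by rw [hR]; exact min_le_right _ _
    obtain ⟨Y0, c0, d0, a1, a2, a3, a4, a5⟩ := hBL X D hS hdim x0 R hR0 hR1
    obtain ⟨Y1, c1, d1, b1, b2, b3, b4, b5⟩ := hBL X D hS hdim x1 R hR0 hR1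
    obtain ⟨k0, e0, p1, p2, p3, p4⟩ :=
      rr_core hMS hEX hFO hEL hS hR0 hR1 x0 Y0 c0 d0 a1 a2 a3 a4 a5
    obtain ⟨k1, e1, q1, q2, q3, q4⟩ :=
      rr_core hMS hEX hFO hEL hS hR0 hR1 x1 Y1 c1 d1 b1 b2 b3 b4 b5
    refine ⟨min k0 k1, min e0 e1, lt_min p1 q1, (min_le_left _ _).trans p2, lt_min p3 q3, ?_⟩
    intro E hE hEn z hz hz2
    have hcase : 4 * R ≤ dist z x0 ∨ 4 * R ≤ dist z x1 := by
      by_contra h
      push Not at h
      have := dist_triangle x0 z x1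
      rw [dist_comm x0 z] at this
      linarith [h.1, h.2]
    obtain h | h := hcase
    · exact slopeGe_mono (mul_le_mul_of_nonneg_right (min_le_left _ _) hz.le)
        (p4 E hE hEn z h hz (hz2.trans_le (min_le_left _ _)))
    · exact slopeGe_mono (mul_le_mul_of_nonneg_right (min_le_right _ _) hz.le)
        (q4 E hE hEn z h hz (hz2.trans_le (min_le_right _ _)))

end Pool.Agent.H48.AL
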